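import Mathlib
import Pool.Agent.H730R3.PrimeStep

set_option autoImplicit false
set_option linter.all false

/-! The final step: making the sum equal to `0` by swaps inside gadgets, for a general finite
abelian group. -/

namespace V11133.ZS

open Finset Pool.Agent.H730R3

theorem greedy {A ι : Type} [AddCommGroup A] [LinearOrder ι] (Mi : ι → AddSubgroup A) (D : ι → A)
    (ε : ι → ι → A) (hd : ∀ i, ε i i ∉ Mi i) (ht : ∀ i j, j < i → ε i j = 0) (s : Finset ι) :
    ∃ B ⊆ s, ∀ i ∈ s, D i + ∑ j ∈ B, ε i j ∉ Mi i := by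
  classical
  induction s using Finset.induction_on_min with
  | empty => exact ⟨∅, Subset.refl _, by simp⟩
  | insert a s hlt ih =>
    obtain ⟨B, hB, h⟩ := ih
    have has : a ∉ s := fun h => lt_irrefl _ (hlt a h)
    have haB : a ∉ B := fun h => has (hB h)
    by_cases hv : D a + ∑ j ∈ B, ε a j ∈ Mi a
    · refine ⟨insert a B, insert_subset_insert _ hB, ?_⟩
      intro i hi
      rw [sum_insert haB]
      rcases mem_insert.1 hi with rfl | hi
      · intro h2
        apply hd i
        have h3 := (Mi i).sub_mem h2 hv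
        have h4 : D i + (ε i i + ∑ j ∈ B, ε i j) - (D i + ∑ j ∈ B, ε i j) = ε i i := by abel
        rwa [h4] at h3
      · rw [ht i a (hlt i hi), zero_add]
        exact h i hi
    · refine ⟨B, hB.trans (subset_insert _ _), ?_⟩
      intro i hi
      rcases mem_insert.1 hi with rfl | hi
      · exact hv
      · exact h i hi

open Pointwise in
theorem cover {A ι : Type} [AddCommGroup A] [Fintype A] [DecidableEq A] [Fintype ι] [DecidableEq ι]
    (H : AddSubgroup A)
    (D : ι → A) (hD : ∀ i, D i ∈ H)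
    (hcount : ∀ M : AddSubgroup A, M < H → ∃ t : Finset ι, Fintype.card A ≤ t.card ∧
      ∀ i ∈ t, D i ∉ M) (h : A) (hh : h ∈ H) : ∃ Y : Finset ι, ∑ i ∈ Y, D i = h := by
  classical
  let T : Finset ι → Finset A := fun s => s.powerset.image (fun Y => ∑ i ∈ Y, D i)
  have hT : ∀ s x, x ∈ T s ↔ ∃ Y ⊆ s, ∑ i ∈ Y, D i = x := by
    intro s x
    simp [T]
  have hTH : ∀ s x, x ∈ T s → x ∈ H := by
    intro s x hx
    obtain ⟨Y, -, rfl⟩ := (hT s x).1 hx
    exact H.sum_mem (fun i _ => hD i)
  have h0 : ∀ s, (0 : A) ∈ T s := fun s => (hT s 0).2 ⟨∅, by simp, by simp⟩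
  have key : ∀ n, n < Fintype.card A → ∃ s : Finset ι, s.card ≤ n ∧
      (n + 1 ≤ (T s).card ∨ ∀ x ∈ H, x ∈ T s) := by
    intro n
    induction n with
    | zero =>
      intro _
      refine ⟨∅, by simp, Or.inl ?_⟩
      exact Finset.card_pos.2 ⟨0, h0 _⟩
    | succ n ih =>
      intro hn
      obtain ⟨s, hs, h1 | h1⟩ := ih (by omega)
      swap
      · exact ⟨s, by omega, Or.inr h1⟩
      by_cases hall : ∀ x ∈ H, x ∈ T s
      · exact ⟨s, by omega, Or.inr hall⟩
      let M : AddSubgroup A := H ⊓ AddAction.stabilizer A (T s)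
      have hM : M < H := by
        refine lt_of_le_of_ne inf_le_left ?_
        intro heq
        apply hall
        intro x hx
        have hx' : x ∈ M := by rw [heq]; exact hx
        have h2 : x +ᵥ (T s) = T s := AddAction.mem_stabilizer_iff.1 hx'.2
        rw [← h2]
        have h3 : x +ᵥ (0 : A) ∈ x +ᵥ (T s) := Finset.vadd_mem_vadd_finset (h0 s)
        simpa using h3
      obtain ⟨t, ht, htM⟩ := hcount M hM
      obtain ⟨i, hit, his⟩ : ∃ i ∈ t, i ∉ s := by
        by_contra hc
        push Not at hc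
        have := card_le_card (show t ⊆ s from hc)
        omega
      have hiM : D i +ᵥ T s ≠ T s := by
        intro h2
        exact htM i hit ⟨hD i, AddAction.mem_stabilizer_iff.2 h2⟩
      obtain ⟨y, hy, hyT⟩ : ∃ y ∈ D i +ᵥ T s, y ∉ T s := by
        by_contra hc
        push Not at hc
        apply hiM
        apply Finset.eq_of_subset_of_card_le hc
        rw [Finset.card_vadd_finset]
      refine ⟨insert i s, by rw [card_insert_of_notMem his]; omega, Or.inl ?_⟩
      have hsub : insert y (T s) ⊆ T (insert i s) := by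
        intro x hx
        rcases mem_insert.1 hx with rfl | hx
        · rw [Finset.mem_vadd_finset] at hy
          obtain ⟨z, hz, hzx⟩ := hy
          obtain ⟨Y, hY, hYz⟩ := (hT s z).1 hz
          refine (hT _ _).2 ⟨insert i Y, insert_subset_insert _ hY, ?_⟩
          rw [sum_insert (fun h => his (hY h)), hYz, ← hzx]
          rfl
        · obtain ⟨Y, hY, hYz⟩ := (hT s x).1 hx
          exact (hT _ _).2 ⟨Y, hY.trans (subset_insert _ _), hYz⟩
      have := card_le_card hsub
      rw [card_insert_of_notMem hyT] at this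
      omega
  have hpos : 0 < Fintype.card A := Fintype.card_pos_iff.2 ⟨0⟩
  obtain ⟨s, -, h1 | h1⟩ := key (Fintype.card A - 1) (by omega)
  · have h2 : T s = univ := by
      rw [← Finset.card_eq_iff_eq_univ]
      have := Finset.card_le_univ (T s)
      omega
    obtain ⟨Y, -, hY⟩ := (hT s h).1 (by rw [h2]; exact mem_univ _)
    exact ⟨Y, hY⟩
  · obtain ⟨Y, -, hY⟩ := (hT s h).1 (h1 h hh)
    exact ⟨Y, hY⟩

theorem finalStep (A : Type) [AddCommGroup A] [Fintype A] (V X ι : Type) [Fintype V]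
    [DecidableEq V] [Fintype ι] [LinearOrder ι] (G : SimpleGraph V) [DecidableRel G.Adj]
    (f : Sym2 X → A) (H : AddSubgroup A) (Mi : ι → AddSubgroup A)
    (X1 : Set X) (φ : V → X) (hφi : Function.Injective φ) (hφX : ∀ v, φ v ∈ X1)
    (c : ι → Fin 4 → V) (hc : Function.Injective (fun p : ι × Fin 4 => c p.1 p.2))
    (b : Prop) (hb : ∀ i j, i ≠ j → (G.Adj (c i 0) (c j 0) ↔ b) ∧ (G.Adj (c i 0) (c j 1) ↔ b) ∧
      (G.Adj (c i 1) (c j 0) ↔ b) ∧ (G.Adj (c i 1) (c j 1) ↔ b))
    (hdist : ∀ i, ¬ (G.Adj (c i 0) (c i 2) ↔ G.Adj (c i 1) (c i 2)))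
    (htri : ∀ i j, j < i → (G.Adj (c i 0) (c j 2) ↔ G.Adj (c i 1) (c j 2)))
    (hiso : ∀ i v, ¬ G.Adj v (c i 3))
    (htw1 : ∀ i, ∀ x ∈ X1, x ≠ φ (c i 0) → x ≠ φ (c i 1) → f s(x, φ (c i 0)) - f s(x, φ (c i 1)) ∈ H)
    (htw2 : ∀ i, ∀ x ∈ X1, x ≠ φ (c i 2) → x ≠ φ (c i 3) → f s(x, φ (c i 2)) - f s(x, φ (c i 3)) ∈ H)
    (hdel : ∀ i, Del f (φ (c i 0)) (φ (c i 1)) (φ (c i 2)) (φ (c i 3)) ∉ Mi i)
    (hS : S G f φ ∈ H)
    (hcount : ∀ M : AddSubgroup A, M < H → ∃ t : Finset ι, Fintype.card A ≤ t.card ∧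
      ∀ i ∈ t, Mi i = M) :
    ∃ φ' : V → X, Function.Injective φ' ∧ S G f φ' = 0 := by
  classical
  -- the swapped map
  let σ : Fin 4 → Fin 4 := ![1, 0, 3, 2]
  let ψ : V → X := Function.extend (fun p : ι × Fin 4 => c p.1 p.2)
    (fun p => φ (c p.1 (σ p.2))) φ
  have hψ : ∀ i a, ψ (c i a) = φ (c i (σ a)) := fun i a =>
    hc.extend_apply (fun p : ι × Fin 4 => φ (c p.1 (σ p.2))) φ (i, a)
  have hψ0 : ∀ i, ψ (c i 0) = φ (c i 1) := fun i => hψ i 0
  have hψ1 : ∀ i, ψ (c i 1) = φ (c i 0) := fun i => hψ i 1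
  have hψ2 : ∀ i, ψ (c i 2) = φ (c i 3) := fun i => hψ i 2
  have hψ3 : ∀ i, ψ (c i 3) = φ (c i 2) := fun i => hψ i 3
  have hcne : ∀ i j a b, (i ≠ j ∨ a ≠ b) → c i a ≠ c j b := by
    intro i j a b hor h
    have := hc (a₁ := (i, a)) (a₂ := (j, b)) h
    rw [Prod.ext_iff] at this
    rcases hor with h' | h'
    · exact h' this.1
    · exact h' this.2
  let W : ι × Bool → Finset V := fun p => if p.2 = true then {c p.1 2, c p.1 3} else {c p.1 0, c p.1 1}
  have hWt : ∀ i, W (i, true) = {c i 2, c i 3} := fun i => by simp [W]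
  have hWf : ∀ i, W (i, false) = {c i 0, c i 1} := fun i => by simp [W]
  have hW : ∀ p p', p ≠ p' → Disjoint (W p) (W p') := by
    rintro ⟨i, x⟩ ⟨j, y⟩ hne
    rw [disjoint_left]
    intro v hv hv'
    rcases x with _ | _ <;> rcases y with _ | _
    · have hij : i ≠ j := fun h => hne (by rw [h])
      rw [hWf] at hv hv'
      simp only [mem_insert, mem_singleton] at hv hv'
      rcases hv with rfl | rfl <;> rcases hv' with h | h <;> exact hcne _ _ _ _ (Or.inl hij) h
    · rw [hWf] at hv
      rw [hWt] at hv'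
      simp only [mem_insert, mem_singleton] at hv hv'
      rcases hv with rfl | rfl <;> rcases hv' with h | h <;>
        exact hcne _ _ _ _ (Or.inr (by decide)) h
    · rw [hWt] at hv
      rw [hWf] at hv'
      simp only [mem_insert, mem_singleton] at hv hv'
      rcases hv with rfl | rfl <;> rcases hv' with h | h <;>
        exact hcne _ _ _ _ (Or.inr (by decide)) h
    · have hij : i ≠ j := fun h => hne (by rw [h])
      rw [hWt] at hv hv'
      simp only [mem_insert, mem_singleton] at hv hv'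
      rcases hv with rfl | rfl <;> rcases hv' with h | h <;> exact hcne _ _ _ _ (Or.inl hij) h
  have hquad := isQuad_blocks G f φ ψ W hW
  set F : Finset (ι × Bool) → A := fun Y => S G f (mix φ ψ (Y.biUnion W)) with hF
  set a : ι × Bool → A := fun i => S G f (mix φ ψ (W i)) - S G f φ with ha
  set Bq : ι × Bool → ι × Bool → A :=
    fun i j => ∑ u ∈ W i, ∑ v ∈ W j, if G.Adj u v then d2 f φ ψ u v else 0 with hBq
  have hF0 : F ∅ = S G f φ := by simp only [hF, biUnion_empty, mix_empty]
  -- invariants of all partial swaps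
  have hinv : ∀ Z : Finset (ι × Bool), Function.Injective (mix φ ψ (Z.biUnion W)) ∧
      (∀ v, mix φ ψ (Z.biUnion W) v ∈ X1) ∧ F Z ∈ H := by
    intro Z
    induction Z using Finset.induction_on with
    | empty =>
      refine ⟨?_, ?_, ?_⟩
      · rw [biUnion_empty, mix_empty]; exact hφi
      · rw [biUnion_empty, mix_empty]; exact hφX
      · rw [hF0]; exact hS
    | insert p Z hp ih =>
      obtain ⟨ih1, ih2, ih3⟩ := ih
      have hdis : Disjoint (W p) (Z.biUnion W) := by
        rw [disjoint_biUnion_right]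
        intro j hj
        exact hW p j (fun h => hp (h ▸ hj))
      obtain ⟨i, x⟩ := p
      have key : ∃ u v, W (i, x) = {u, v} ∧ u ≠ v ∧ ψ u = φ v ∧ ψ v = φ u ∧
          ∀ y ∈ X1, y ≠ φ u → y ≠ φ v → f s(y, φ u) - f s(y, φ v) ∈ H := by
        rcases x with _ | _
        · exact ⟨c i 0, c i 1, hWf i, hcne _ _ _ _ (Or.inr (by decide)), hψ0 i, hψ1 i, htw1 i⟩
        · exact ⟨c i 2, c i 3, hWt i, hcne _ _ _ _ (Or.inr (by decide)), hψ2 i, hψ3 i, htw2 i⟩
      obtain ⟨u, v, hWuv, huv, hu, hv, htw⟩ := key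
      rw [hWuv] at hdis
      have huZ : u ∉ Z.biUnion W := fun h => disjoint_left.1 hdis (by simp) h
      have hvZ : v ∉ Z.biUnion W := fun h => disjoint_left.1 hdis (by simp) h
      have hms := mix_swap φ ψ (Z.biUnion W) u v huv huZ hvZ hu hv
      have hmu : mix φ ψ (Z.biUnion W) u = φ u := by simp [mix, huZ]
      have hmv : mix φ ψ (Z.biUnion W) v = φ v := by simp [mix, hvZ]
      refine ⟨?_, ?_, ?_⟩
      · rw [biUnion_insert, hWuv, hms]
        exact ih1.comp (Equiv.injective _)
      · rw [biUnion_insert, hWuv, hms]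
        intro t
        exact ih2 _
      · simp only [hF]
        rw [biUnion_insert, hWuv, hms]
        have h1 := S_swap_mem H G f (mix φ ψ (Z.biUnion W)) u v (by
          intro t htu htv
          rw [hmu, hmv]
          apply htw _ (ih2 t)
          · intro h; rw [← hmu] at h; exact htu (ih1 h)
          · intro h; rw [← hmv] at h; exact htv (ih1 h))
        have h2 := H.add_mem h1 ih3
        simp only [hF, sub_add_cancel] at h2
        exact h2
  have haH : ∀ p, a p ∈ H := by
    intro p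
    have h1 := (hinv {p}).2.2
    simp only [hF, singleton_biUnion] at h1
    simp only [ha]
    exact H.sub_mem h1 hS
  have hBqH : ∀ p p', p ≠ p' → Bq p p' ∈ H := by
    intro p p' hne
    have h1 := hquad p {p'} (by simpa using hne)
    rw [sum_singleton] at h1
    have h2 : Bq p p' = F (insert p {p'}) - F {p'} - a p := by
      rw [h1]; abel
    rw [h2]
    exact H.sub_mem (H.sub_mem (hinv _).2.2 (hinv _).2.2) (haH p)
  have hyy : ∀ i j, i ≠ j → Bq (i, false) (j, false) = 0 := by
    intro i j hij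
    simp only [hBq]
    rw [hWf, hWf, d2_swaps G f φ ψ _ _ _ _ (hcne _ _ _ _ (Or.inr (by decide)))
      (hcne _ _ _ _ (Or.inr (by decide))) (hψ0 i) (hψ1 i) (hψ0 j) (hψ1 j)]
    obtain ⟨b1, b2, b3, b4⟩ := hb i j hij
    simp only [b1, b2, b3, b4]
    split_ifs <;> simp
  have hyb : ∀ i, Bq (i, false) (i, true) ∉ Mi i := by
    intro i
    simp only [hBq]
    rw [hWf, hWt, d2_swaps G f φ ψ _ _ _ _ (hcne _ _ _ _ (Or.inr (by decide)))
      (hcne _ _ _ _ (Or.inr (by decide))) (hψ0 i) (hψ1 i) (hψ2 i) (hψ3 i)]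
    rw [if_neg (hiso i (c i 0)), if_neg (hiso i (c i 1))]
    have hd := hdist i
    by_cases h1 : G.Adj (c i 0) (c i 2)
    · have h2 : ¬ G.Adj (c i 1) (c i 2) := fun h => hd ⟨fun _ => h, fun _ => h1⟩
      rw [if_pos h1, if_neg h2]
      simpa using hdel i
    · have h2 : G.Adj (c i 1) (c i 2) := by
        by_contra h
        exact hd ⟨fun h' => absurd h' h1, fun h' => absurd h' h⟩
      rw [if_neg h1, if_pos h2]
      intro h
      apply hdel i
      have := (Mi i).neg_mem h
      simpa using this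
  have hytri : ∀ i j, j < i → Bq (i, false) (j, true) = 0 := by
    intro i j hij
    simp only [hBq]
    rw [hWf, hWt, d2_swaps G f φ ψ _ _ _ _ (hcne _ _ _ _ (Or.inr (by decide)))
      (hcne _ _ _ _ (Or.inr (by decide))) (hψ0 i) (hψ1 i) (hψ2 j) (hψ3 j)]
    rw [if_neg (hiso j (c i 0)), if_neg (hiso j (c i 1))]
    have ht := htri i j hij
    by_cases h1 : G.Adj (c i 0) (c j 2)
    · rw [if_pos h1, if_pos (ht.1 h1)]; simp
    · rw [if_neg h1, if_neg (fun h => h1 (ht.2 h))]; simp
  obtain ⟨B, -, hBg⟩ := greedy Mi (fun i => a (i, false)) (fun i j => Bq (i, false) (j, true))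
    hyb hytri univ
  set D' : ι → A := fun i => a (i, false) + ∑ j ∈ B, Bq (i, false) (j, true) with hD'
  have hD'H : ∀ i, D' i ∈ H := fun i =>
    H.add_mem (haH _) (H.sum_mem (fun j _ => hBqH _ _ (by simp)))
  have hsum : ∀ Y' : Finset ι,
      F (Y'.image (fun i => (i, false)) ∪ B.image (fun i => (i, true)))
        = F (B.image (fun i => (i, true))) + ∑ i ∈ Y', D' i := by
    intro Y'
    induction Y' using Finset.induction_on with
    | empty => simp
    | insert i Y' hi ih =>
      rw [image_insert, insert_union, hquad (i, false) _ (by simpa using hi), ih, sum_insert hi]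
      have hdj : Disjoint (Y'.image (fun i => (i, false))) (B.image (fun i => (i, true))) := by
        rw [disjoint_left]
        intro p hp hp'
        rw [mem_image] at hp hp'
        obtain ⟨x, _, rfl⟩ := hp
        obtain ⟨y, _, hy⟩ := hp'
        simp at hy
      rw [sum_union hdj, sum_image (fun x _ y _ hxy => (Prod.ext_iff.1 hxy).1),
        sum_image (fun x _ y _ hxy => (Prod.ext_iff.1 hxy).1)]
      have h0 : ∑ j ∈ Y', Bq (i, false) (j, false) = 0 :=
        sum_eq_zero (fun j hj => hyy i j (fun h => hi (h ▸ hj)))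
      rw [h0, zero_add]
      simp only [hD']
      abel
  obtain ⟨Y, hY⟩ := cover H D' hD'H (by
    intro M hM
    obtain ⟨t, ht, htM⟩ := hcount M hM
    refine ⟨t, ht, fun i hi => ?_⟩
    have := hBg i (mem_univ _)
    rw [htM i hi] at this
    exact this) (- F (B.image (fun i => (i, true)))) (H.neg_mem (hinv _).2.2)
  have hfin := hsum Y
  rw [hY, add_neg_cancel] at hfin
  exact ⟨_, (hinv _).1, hfin⟩

end V11133.ZS
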