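import Mathlib
import Pool.Agent.H730R3.GStruct

set_option autoImplicit false
set_option linter.all false

/-! A graph has boundedly many twin classes or many disjoint distinguishing triples inside a
homogeneous set, later pairs being twins relative to the earlier distinguishing vertices
(adapted from `Pool.Agent.H730R3.GStruct`). -/

namespace V11133.ZS

open Finset Pool.Agent.H730R3

theorem gstruct' (T : ℕ) : ∃ Q : ℕ, ∀ (V : Type) [Fintype V] (G : SimpleGraph V),
    (∃ cl : V → Fin Q, ∀ u v, cl u = cl v → Twin G u v) ∨
    (∃ c : Fin T → Fin 3 → V, Function.Injective (fun p : Fin T × Fin 3 => c p.1 p.2) ∧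
      (∀ i, ¬ (G.Adj (c i 0) (c i 2) ↔ G.Adj (c i 1) (c i 2))) ∧
      (∀ i j, j < i → (G.Adj (c i 0) (c j 2) ↔ G.Adj (c i 1) (c j 2))) ∧
      ∃ (U : Finset V) (b : Prop), (∀ i, c i 0 ∈ U ∧ c i 1 ∈ U) ∧
        ∀ u ∈ U, ∀ v ∈ U, u ≠ v → (G.Adj u v ↔ b)) := by
  classical
  obtain ⟨N, hN⟩ := ramsey_symm Bool (2 * T + 2 ^ T + 1)
  refine ⟨N + 1, ?_⟩
  intro V _ G
  obtain ⟨W, hW, hWmax⟩ := Finset.exists_max_image
    ((univ : Finset (Finset V)).filter (fun W => ∀ u ∈ W, ∀ v ∈ W, u ≠ v → ¬ Twin G u v))
    (fun W => W.card) ⟨∅, by simp⟩
  have hWn := (mem_filter.1 hW).2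
  by_cases hlt : W.card < N + 1
  · left
    have hex : ∀ v : V, ∃ w ∈ W, Twin G v w := by
      intro v
      by_cases hv : v ∈ W
      · exact ⟨v, hv, Twin.refl G v⟩
      · by_contra hcon
        push Not at hcon
        have h1 := hWmax (insert v W) (mem_filter.2 ⟨mem_univ _, by
          intro u hu u' hu' huu
          rcases mem_insert.1 hu with h | h
          · rcases mem_insert.1 hu' with h' | h'
            · exact absurd (h.trans h'.symm) huu
            · rw [h]; exact hcon u' h'
          · rcases mem_insert.1 hu' with h' | h'
            · rw [h']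
              intro ht
              exact hcon u h (fun w hw1 hw2 => (ht w hw2 hw1).symm)
            · exact hWn u h u' h' huu⟩)
        rw [card_insert_of_notMem hv] at h1
        omega
    choose w hw1 hw2 using hex
    refine ⟨fun v => Fin.castLE (by omega) (W.equivFin ⟨w v, hw1 v⟩), ?_⟩
    intro u v huv
    have h1 := Fin.castLE_injective _ huv
    have h2 := W.equivFin.injective h1
    have h3 : w u = w v := congrArg Subtype.val h2
    have h4 := hw2 v
    rw [← h3] at h4
    exact Twin.trans' (hw2 u) h4
  · right
    push Not at hlt
    obtain ⟨U, hUW, hUc, γ, hγ⟩ := hN V (fun u v => decide (G.Adj u v))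
      (by intro x y; simp [G.adj_comm]) W (by omega)
    have hhom : ∀ u ∈ U, ∀ v ∈ U, u ≠ v → (G.Adj u v ↔ γ = true) := by
      intro u hu v hv huv
      have := hγ u hu v hv huv
      rw [← this]; simp
    have main : ∀ t, t ≤ T → ∃ c : Fin t → Fin 3 → V,
        Function.Injective (fun p : Fin t × Fin 3 => c p.1 p.2) ∧
        (∀ i, ¬ (G.Adj (c i 0) (c i 2) ↔ G.Adj (c i 1) (c i 2))) ∧
        (∀ i, c i 0 ∈ U ∧ c i 1 ∈ U ∧ c i 2 ∉ U) ∧
        (∀ i j, j < i → (G.Adj (c i 0) (c j 2) ↔ G.Adj (c i 1) (c j 2))) := by
      intro t
      induction t with
      | zero =>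
        intro _
        exact ⟨fun i => i.elim0, fun p => p.1.elim0, fun i => i.elim0, fun i => i.elim0,
          fun i => i.elim0⟩
      | succ t ih =>
        intro ht
        obtain ⟨c, hc1, hc2, hc3, hc4⟩ := ih (by omega)
        set D : Finset V := (univ : Finset (Fin t)).biUnion (fun i => {c i 0, c i 1}) with hD
        have hDc : D.card ≤ 2 * t := by
          have := Finset.card_biUnion_le_card_mul (univ : Finset (Fin t))
            (fun i => ({c i 0, c i 1} : Finset V)) 2 (fun i _ => card_le_two)
          rw [card_univ, Fintype.card_fin, ← hD] at this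
          omega
        have hpow : 2 ^ t ≤ 2 ^ T := Nat.pow_le_pow_right (by norm_num) (by omega)
        have hcard : (univ : Finset (Fin t → Bool)).card < (U \ D).card := by
          have h1 := Finset.le_card_sdiff D U
          rw [card_univ, Fintype.card_fun, Fintype.card_bool, Fintype.card_fin]
          omega
        obtain ⟨u, hu, v, hv, huv, he⟩ := Finset.exists_ne_map_eq_of_card_lt_of_maps_to hcard
          (f := fun u => fun i => decide (G.Adj u (c i 2))) (fun _ _ => mem_coe.2 (mem_univ _))
        rw [mem_sdiff] at hu hv
        have hnt := hWn u (hUW hu.1) v (hUW hv.1) huv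
        unfold Twin at hnt
        push Not at hnt
        obtain ⟨w, hwu, hwv, hw⟩ := hnt
        have hw' : ¬ (G.Adj u w ↔ G.Adj v w) := by tauto
        have hwU : w ∉ U := by
          intro h
          apply hw'
          rw [hhom u hu.1 w h (Ne.symm hwu), hhom v hv.1 w h (Ne.symm hwv)]
        have hwc : ∀ i, w ≠ c i 2 := by
          intro i h
          apply hw'
          have := congrFun he i
          simp only [decide_eq_decide] at this
          rw [h]; exact this
        have huD : ∀ i, u ≠ c i 0 ∧ u ≠ c i 1 := by
          intro i
          constructor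
          · intro h; apply hu.2; rw [hD, mem_biUnion]; exact ⟨i, mem_univ _, by simp [h]⟩
          · intro h; apply hu.2; rw [hD, mem_biUnion]; exact ⟨i, mem_univ _, by simp [h]⟩
        have hvD : ∀ i, v ≠ c i 0 ∧ v ≠ c i 1 := by
          intro i
          constructor
          · intro h; apply hv.2; rw [hD, mem_biUnion]; exact ⟨i, mem_univ _, by simp [h]⟩
          · intro h; apply hv.2; rw [hD, mem_biUnion]; exact ⟨i, mem_univ _, by simp [h]⟩
        refine ⟨Fin.snoc (α := fun _ => Fin 3 → V) c ![u, v, w], ?_, ?_, ?_, ?_⟩
        · apply inj_snoc c hc1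
          · intro a b hab
            fin_cases a <;> fin_cases b <;> simp at hab ⊢
            · exact huv hab
            · exact hwu hab.symm
            · exact huv hab.symm
            · exact hwv hab.symm
            · exact hwu hab
            · exact hwv hab
          · intro a i b
            fin_cases a <;> fin_cases b <;> simp
            · exact (huD i).1
            · exact (huD i).2
            · intro h; exact (hc3 i).2.2 (h ▸ hu.1)
            · exact (hvD i).1
            · exact (hvD i).2
            · intro h; exact (hc3 i).2.2 (h ▸ hv.1)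
            · intro h; exact hwU (h ▸ (hc3 i).1)
            · intro h; exact hwU (h ▸ (hc3 i).2.1)
            · exact hwc i
        · intro i
          induction i using Fin.lastCases with
          | last => simp only [Fin.snoc_last]; simpa using hw'
          | cast i => simp only [Fin.snoc_castSucc]; exact hc2 i
        · intro i
          induction i using Fin.lastCases with
          | last => simp only [Fin.snoc_last]; exact ⟨hu.1, hv.1, hwU⟩
          | cast i => simp only [Fin.snoc_castSucc]; exact hc3 i
        · intro i j
          induction i using Fin.lastCases with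
          | last =>
            induction j using Fin.lastCases with
            | last => intro h; exact absurd h (lt_irrefl _)
            | cast j =>
              intro _
              simp only [Fin.snoc_last, Fin.snoc_castSucc]
              have := congrFun he j
              simp only [decide_eq_decide] at this
              exact this
          | cast i =>
            induction j using Fin.lastCases with
            | last => intro h; exact absurd h (not_lt.2 (Fin.le_last _))
            | cast j =>
              intro h
              simp only [Fin.snoc_castSucc]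
              exact hc4 i j (Fin.castSucc_lt_castSucc_iff.1 h)
    obtain ⟨c, hc1, hc2, hc3, hc4⟩ := main T le_rfl
    exact ⟨c, hc1, hc2, hc4, U, γ = true, fun i => ⟨(hc3 i).1, (hc3 i).2.1⟩, hhom⟩

end V11133.ZS
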