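import Mathlib
import Pool.Agent.H730R3.Process
import Pool.Agent.H730R3.LemmaB
import Pool.Agent.H730R3.FStruct
import Pool.Agent.H730R3.MainA

set_option autoImplicit false
set_option linter.all false

/-! General finite abelian groups: Ramsey for quadratic set functions and the unstacking process
(adapted from `Pool.Agent.H730R3`, where the group is cyclic). -/

namespace V11133.ZS

open Finset Pool.Agent.H730R3

/-- Ramsey for quadratic set functions: a set of size `2km` on which nothing changes. -/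
theorem block_ramsey' (A : Type) [AddCommGroup A] [Fintype A] (k : ℕ) (hA : ∀ a : A, k • a = 0) (m : ℕ) :
    ∃ N : ℕ, ∀ (ι : Type) [LinearOrder ι] (F : Finset ι → A) (a : ι → A)
      (B : ι → ι → A), IsQuad F a B → ∀ T : Finset ι, N ≤ T.card →
      ∃ Y ⊆ T, Y.card = 2 * k * m ∧ F Y = F ∅ := by
  obtain ⟨N, hN⟩ := ramsey (A × A) (2 * k * m + 1)
  refine ⟨N, ?_⟩
  intro ι _ F a B hF T hT
  obtain ⟨T', hT', hc, ⟨α, β⟩, hγ⟩ := hN ι (fun i j => (a i, B i j)) T hT
  have hne : T'.Nonempty := by rw [← card_pos]; omega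
  refine ⟨T'.erase (T'.max' hne), (erase_subset _ _).trans hT', ?_, ?_⟩
  · rw [card_erase_of_mem (T'.max'_mem hne), hc]; rfl
  · have hcard : (T'.erase (T'.max' hne)).card = 2 * k * m := by
      rw [card_erase_of_mem (T'.max'_mem hne), hc]; rfl
    have h1 : ∀ i ∈ T'.erase (T'.max' hne), i ∈ T' ∧ i < T'.max' hne := by
      intro i hi
      rw [mem_erase] at hi
      exact ⟨hi.2, lt_of_le_of_ne (T'.le_max' i hi.2) hi.1⟩
    rw [hF.homog α β _ (fun i hi => congrArg Prod.fst (hγ i (h1 i hi).1 _ (T'.max'_mem hne) (h1 i hi).2))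
      (fun i hi j hj hij => congrArg Prod.snd (hγ i (h1 i hi).1 j (h1 j hj).1 hij)), hcard]
    have e1 : (2 * k * m) • α = 0 := by
      rw [show 2 * k * m = (2 * m) * k by ring, mul_smul, hA, smul_zero]
    have e2 : ((2 * k * m).choose 2) • β = 0 := by
      have : (2 * k * m).choose 2 = k * (m * (2 * k * m - 1)) := by
        rw [Nat.choose_two_right]
        rw [show 2 * k * m * (2 * k * m - 1) = 2 * (k * (m * (2 * k * m - 1))) by ring]
        simp
      rw [this, mul_comm, mul_smul, hA, smul_zero]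
    rw [e1, e2]; simp

theorem process' (A : Type) [AddCommGroup A] [Fintype A] (k : ℕ) (hk : 0 < k)
    (hA : ∀ a : A, k • a = 0) : ∃ M : ℕ, ∀ (V X : Type) [Fintype V] [DecidableEq V]
    [DecidableEq X] (G : SimpleGraph V) [DecidableRel G.Adj] (f : Sym2 X → A) (z0 : X)
    (X0 : Finset X), z0 ∉ X0 → Fintype.card V ≤ X0.card →
    ∀ φ : V → X, (∀ v, φ v = z0 ∨ φ v ∈ X0) → (∀ v w, φ v = φ w → φ v ≠ z0 → v = w) →
    ∃ φ' : V → X, (∀ v, φ' v = z0 ∨ φ' v ∈ X0) ∧ (∀ v w, φ' v = φ' w → φ' v ≠ z0 → v = w) ∧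
      S G f φ' = S G f φ ∧ (∀ v, φ v ≠ z0 → φ' v = φ v) ∧
      (univ.filter (fun v => φ' v = z0)).card < M := by
  obtain ⟨N, hN⟩ := block_ramsey' A k hA 1
  refine ⟨N + 1, ?_⟩
  intro V X _ _ _ G _ f z0 X0 hz0 hcard φ
  induction' hr : (univ.filter (fun v => φ v = z0)).card using Nat.strong_induction_on with r ih
    generalizing φ
  intro hφ hinj
  by_cases hlt : r < N + 1
  · exact ⟨φ, hφ, hinj, rfl, fun _ _ => rfl, by rw [hr]; exact hlt⟩
  push Not at hlt
  -- choose stacked vertices and free positions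
  have hR : N ≤ (univ.filter (fun v => φ v = z0)).card := by omega
  obtain ⟨R', hR'sub, hR'c⟩ := Finset.exists_subset_card_eq hR
  have hRz : ∀ v ∈ R', φ v = z0 := fun v hv => (mem_filter.1 (hR'sub hv)).2
  set I := (univ.filter (fun v => ¬ φ v = z0)).image φ with hI
  have hIc : I.card ≤ Fintype.card V - r := by
    have h1 : I.card ≤ (univ.filter (fun v => ¬ φ v = z0)).card := Finset.card_image_le
    have h2 := Finset.card_filter_add_card_filter_not (s := (univ : Finset V)) (fun v => φ v = z0)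
    rw [card_univ] at h2
    omega
  have hrV : r ≤ Fintype.card V := by
    rw [← hr, ← card_univ]; exact card_le_card (filter_subset _ _)
  have hP : N ≤ (X0 \ I).card := by
    have := Finset.le_card_sdiff I X0
    omega
  obtain ⟨P', hP'sub, hP'c⟩ := Finset.exists_subset_card_eq hP
  have hPX : ∀ x ∈ P', x ∈ X0 := fun x hx => (mem_sdiff.1 (hP'sub hx)).1
  have hPI : ∀ x ∈ P', ∀ v, φ v ≠ z0 → φ v ≠ x := by
    intro x hx v hv h
    apply (mem_sdiff.1 (hP'sub hx)).2
    rw [hI, mem_image]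
    exact ⟨v, mem_filter.2 ⟨mem_univ _, hv⟩, h⟩
  let eR : R' ≃ Fin N := Finset.equivFinOfCardEq hR'c
  let eP : P' ≃ Fin N := Finset.equivFinOfCardEq hP'c
  let ψ : V → X := fun t => if h : t ∈ R' then (eP.symm (eR ⟨t, h⟩)).1 else φ t
  have hψ : ∀ t, t ∈ R' → ψ t ∈ P' := by
    intro t h
    simp only [ψ, dif_pos h]
    exact (eP.symm (eR ⟨t, h⟩)).2
  have hψinj : ∀ t t', t ∈ R' → t' ∈ R' → ψ t = ψ t' → t = t' := by
    intro t t' h h' he
    simp only [ψ, dif_pos h, dif_pos h'] at he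
    have h1 := eP.symm.injective (Subtype.ext he)
    have h2 := eR.injective h1
    exact congrArg Subtype.val h2
  let W : Fin N → Finset V := fun i => {(eR.symm i).1}
  have hW : ∀ i j, i ≠ j → Disjoint (W i) (W j) := by
    intro i j hij
    simp only [W, disjoint_singleton]
    intro h
    exact hij (eR.symm.injective (Subtype.ext h))
  obtain ⟨Y, -, hYc, hYF⟩ := hN (Fin N) _ _ _ (isQuad_blocks G f φ ψ W hW) univ
    (by rw [card_univ, Fintype.card_fin])
  simp only [biUnion_empty, mix_empty] at hYF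
  set W0 := Y.biUnion W with hW0
  have hW0R : ∀ t ∈ W0, t ∈ R' := by
    intro t ht
    rw [hW0, mem_biUnion] at ht
    obtain ⟨i, _, hi⟩ := ht
    simp only [W, mem_singleton] at hi
    rw [hi]; exact (eR.symm i).2
  have hW0ne : W0.Nonempty := by
    have hY : Y.Nonempty := by
      rw [← card_pos, hYc]
      positivity
    obtain ⟨i, hi⟩ := hY
    exact ⟨(eR.symm i).1, mem_biUnion.2 ⟨i, hi, by simp [W]⟩⟩
  have hm1 : ∀ t ∈ W0, mix φ ψ W0 t = ψ t := fun t ht => by simp [mix, ht]
  have hm2 : ∀ t, t ∉ W0 → mix φ ψ W0 t = φ t := fun t ht => by simp [mix, ht]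
  have hz0P : ∀ x ∈ P', x ≠ z0 := fun x hx h => hz0 (h ▸ hPX x hx)
  have hlt' : (univ.filter (fun v => mix φ ψ W0 v = z0)).card < r := by
    rw [← hr]
    apply card_lt_card
    rw [ssubset_iff_of_subset]
    · obtain ⟨t, ht⟩ := hW0ne
      refine ⟨t, mem_filter.2 ⟨mem_univ _, hRz t (hW0R t ht)⟩, ?_⟩
      intro h
      have h2 := (mem_filter.1 h).2
      rw [hm1 t ht] at h2
      exact hz0P _ (hψ t (hW0R t ht)) h2
    · intro t ht
      have h2 := (mem_filter.1 ht).2
      by_cases htW : t ∈ W0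
      · exact mem_filter.2 ⟨mem_univ _, hRz t (hW0R t htW)⟩
      · rw [hm2 t htW] at h2
        exact mem_filter.2 ⟨mem_univ _, h2⟩
  obtain ⟨φ', h1, h2, h3, h4, h5⟩ := ih _ hlt' (mix φ ψ W0) rfl (by
      intro v
      by_cases hv : v ∈ W0
      · rw [hm1 v hv]; right; exact hPX _ (hψ v (hW0R v hv))
      · rw [hm2 v hv]; exact hφ v) (by
      intro v w hvw hne
      by_cases hv : v ∈ W0
      · rw [hm1 v hv] at hvw hne
        by_cases hw : w ∈ W0
        · rw [hm1 w hw] at hvw
          exact hψinj v w (hW0R v hv) (hW0R w hw) hvw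
        · rw [hm2 w hw] at hvw
          exfalso
          exact hPI _ (hψ v (hW0R v hv)) w (by rw [← hvw]; exact hne) hvw.symm
      · rw [hm2 v hv] at hvw hne
        by_cases hw : w ∈ W0
        · rw [hm1 w hw] at hvw
          exfalso
          exact hPI _ (hψ w (hW0R w hw)) v hne hvw
        · rw [hm2 w hw] at hvw
          exact hinj v w hvw hne)
  refine ⟨φ', h1, h2, by rw [h3, hYF], ?_, h5⟩
  intro v hv
  have hvW : v ∉ W0 := fun h => hv (hRz v (hW0R v h))
  have := h4 v (by rw [hm2 v hvW]; exact hv)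
  rw [this, hm2 v hvW]

end V11133.ZS
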